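import Pool.Agent.K7.H38.PZ.Main

/-!
# Vassiliev invariants determine the columns of an odd pretzel knot

`Pool.Agent.H835R2.Knot.Defs` (starting library): `Word` (sliced diagrams: lists of the pieces `birth`,
`death`, `pos`, `neg`), `IsKnot D` (`D` is an oriented knot diagram), `IsInvariant v`, `DegreeLE n v`
(Vassiliev invariants of order at most `n`).

`Pool.Agent.K7.H38.PZ.Defs`: `pretzel [p₁, …, p_n]` (the pretzel diagram `P(p₁, …, p_n)` with columns of
`|p₁|, …, |p_n|` crossings, drawn at different heights), `Adm [p₁, …, p_n]` (`n` and all `p_i` are odd, `1`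
and `-1` do not both occur, and less than `(n - 1) / 2` of the `p_i` are `1` or `-1`; for `n = 3` this
means `|p_i| ≥ 3`), `Separated n D E` (some integer valued Vassiliev invariant of order at most `n` has
different values on `D` and `E`).

Proof.  The coefficient of `m^0` in the HOMFLY polynomial of `P(p₁, …, p_n)` is
`l^S (∑ l^(-p_i) - (n - 1) / 2 (l + l^(-1)))`, `S = ∑ p_i`.  Only its coefficients at `l^(S + 1)` and
`l^(S - 1)` are negative, so it determines `S`, `n` and the `p_i` up to their order.  For a polynomial `f` of
degree `d` the sum `∑ c_k f(k)`, where `c_k` is the coefficient of `m^0 l^k` of the HOMFLY polynomial, is a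
Vassiliev invariant of order `d`; `n + n' + 4` exponents are separated by a polynomial of degree
`n + n' + 3`.
-/

set_option autoImplicit false

namespace Pool.Agent.Results.MP_31fd3b_gt.OddPretzelKnots

open Pool.Agent.H835R2.Knot Pool.Agent.K7.H38.PZ

/-- Let `p = (p₁, …, p_n)` and `q = (q₁, …, q_n')` be vectors of odd integers, `n` and `n'` odd, such that
neither in `p` nor in `q` both `1` and `-1` occur, less than `(n - 1) / 2` of the `p_i` and less than
`(n' - 1) / 2` of the `q_i` are `1` or `-1`, and `q` is not a permutation of `p`.  Then some integer valued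
Vassiliev invariant of order at most `n + n' + 3` has different values on the pretzel knots
`P(p₁, …, p_n)` and `P(q₁, …, q_n')`. -/
theorem result (p q : List ℤ) (hp : Adm p) (hq : Adm q) (h : ¬ p.Perm q) :
    IsKnot (pretzel p) ∧ IsKnot (pretzel q) ∧
      Separated (p.length + q.length + 3) (pretzel p) (pretzel q) :=
  ⟨isKnot_pretzel hp.2.1 hp.1, isKnot_pretzel hq.2.1 hq.1, separated hp hq h⟩

end Pool.Agent.Results.MP_31fd3b_gt.OddPretzelKnots
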