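import Pool.Agent.K7.H38.TB.Final

/-!
# Vassiliev invariants of small order separate almost all two-bridge knots from all other two-bridge
# knots

`Pool.Agent.H835R2.Knot.Defs` (starting library): `Word` (sliced diagrams: lists of the pieces `birth`,
`death`, `pos`, `neg`), `IsKnot D` (`D` is an oriented knot diagram), `Isotopic` (generated by planar
isotopy and the Reidemeister moves), `IsInvariant v`, `DegreeLE n v` (Vassiliev invariants of order at
most `n`).

`Pool.Agent.K7.H38.TB.Defs`: `twoBridge b` for `b = (b₁, …, b_{2g})` (the four-plat with `b₁` full twists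
of the strands `1`, `2`, then `b₂` full twists of the strands `0`, `1`, then `b₃` full twists of the
strands `1`, `2`, and so on; the two-bridge knot `C(2 b₁, -2 b₂, 2 b₃, …, -2 b_{2g})`), `Separated n D E`
(some integer valued Vassiliev invariant of order at most `n` has different values on `D` and `E`).

Every two-bridge knot has a diagram `twoBridge b` with an even number `2 g` of entries, all of them
nonzero, and `g` is its genus.

Proof.  The Conway polynomial of `twoBridge b` is a continuant, `A(z²)`, and the derivative of the
HOMFLY polynomial at `l = 1` determines `∑ b_i` and the sum `B + C` of the continuants without the last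
and without the first entry.  The coefficient of `z ^ k` in the derivative is a Vassiliev invariant of
order at most `k + 1`.  If these invariants agree for `b` and `c`, then `A` divides `(B' - B) (B' - C)`,
and if `A` is irreducible, then `B' = B` or `B' = C`, and `c` is `b` or `b` in reversed order, which
gives the same knot (`Pool.Agent.K7.H38.TB.Rev`).  The polynomial `A` is irreducible for almost all `b`,
by counting modulo primes.
-/

set_option autoImplicit false

namespace Pool.Agent.Results.MP_31fd3b_gt.TwoBridgeAlmostAll

open Pool.Agent.H835R2.Knot Pool.Agent.K7.H38.TB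

/-- All `twoBridge b` are knot diagrams.  For all `g > 0` and `ε > 0` there is a number `N₀` such that for
all `N ≥ N₀` the following holds for all but at most `ε (2N)^{2g}` of the `(2N)^{2g}` vectors
`b ∈ ℤ^{2g}` with nonzero entries in `[-N, N]`: for every `g'` and every vector `c ∈ ℤ^{2g'}` with nonzero
entries, either the knots `twoBridge b` and `twoBridge c` are isotopic, or some integer valued Vassiliev
invariant of order at most `2 max(g, g') + 1` has different values on them. -/
theorem result : (∀ b : List ℤ, IsKnot (twoBridge b)) ∧
    ∀ g : ℕ, 0 < g → ∀ ε : ℝ, 0 < ε → ∃ N₀ : ℕ, ∀ N ≥ N₀,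
      (Set.ncard {b : Fin (2 * g) → ℤ | (∀ i, b i ≠ 0 ∧ |b i| ≤ N) ∧
        ∃ c : List ℤ, (Even c.length ∧ ∀ x ∈ c, x ≠ 0) ∧
          ¬ Isotopic (twoBridge (List.ofFn b)) (twoBridge c) ∧
          ¬ Separated (max (2 * g) c.length + 1) (twoBridge (List.ofFn b)) (twoBridge c)} : ℝ) ≤
        ε * (2 * N) ^ (2 * g) :=
  ⟨isKnot_twoBridge, fun g hg ε hε => almost_all g hg ε hε⟩

end Pool.Agent.Results.MP_31fd3b_gt.TwoBridgeAlmostAll
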