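import Pool.Agent.K7.H38.TB.Final

/-!
# Vassiliev invariants of order `2g + 1` detect the chirality of two-bridge knots of genus `g`

`Pool.Agent.H835R2.Knot.Defs` (starting library): `Word` (sliced diagrams: lists of the pieces `birth`,
`death`, `pos`, `neg`), `IsKnot D` (`D` is an oriented knot diagram), `Isotopic` (generated by planar
isotopy and the Reidemeister moves), `mirror D` (all crossings switched), `IsInvariant v`,
`DegreeLE n v` (Vassiliev invariants of order at most `n`).

`Pool.Agent.K7.H38.TB.Defs`: `twoBridge b` for `b = (b₁, …, b_{2g})` (the four-plat with `b₁` full twists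
of the strands `1`, `2`, then `b₂` full twists of the strands `0`, `1`, and so on; the two-bridge knot
`C(2 b₁, -2 b₂, 2 b₃, …, -2 b_{2g})`), `Separated n D E` (some integer valued Vassiliev invariant of
order at most `n` has different values on `D` and `E`).
-/

set_option autoImplicit false

namespace Pool.Agent.Results.MP_31fd3b_gt.TwoBridgeChirality

open Pool.Agent.H835R2.Knot Pool.Agent.K7.H38.TB

/-- Let `b ∈ ℤ^{2g}` be a vector with nonzero entries.  Then `twoBridge b` is a knot diagram, and either
the knot is isotopic to its mirror image, or some integer valued Vassiliev invariant of order at most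
`2 g + 1` has different values on the knot and on its mirror image. -/
theorem result (b : List ℤ) (hb : Even b.length ∧ ∀ x ∈ b, x ≠ 0) :
    IsKnot (twoBridge b) ∧ (Isotopic (twoBridge b) (mirror (twoBridge b)) ∨
      Separated (b.length + 1) (twoBridge b) (mirror (twoBridge b))) :=
  ⟨isKnot_twoBridge b, chirality b hb⟩

end Pool.Agent.Results.MP_31fd3b_gt.TwoBridgeChirality
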