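import Pool.Agent.K7.H38.TB.Final

/-!
# Two-bridge knots with irreducible Conway polynomial

`Pool.Agent.H835R2.Knot.Defs` (starting library): `Word` (sliced diagrams: lists of the pieces `birth`,
`death`, `pos`, `neg`), `IsKnot D` (`D` is an oriented knot diagram), `Isotopic` (generated by planar
isotopy and the Reidemeister moves), `IsInvariant v`, `DegreeLE n v` (Vassiliev invariants of order at
most `n`).

`Pool.Agent.K7.H38.TB.Defs`: `twoBridge b` for `b = (b₁, …, b_{2g})` (the four-plat with `b₁` full twists
of the strands `1`, `2`, then `b₂` full twists of the strands `0`, `1`, and so on; the two-bridge knot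
`C(2 b₁, -2 b₂, 2 b₃, …, -2 b_{2g})`), `Separated n D E` (some integer valued Vassiliev invariant of
order at most `n` has different values on `D` and `E`).

`Pool.Agent.K7.H38.TB.Quad`: `continuant (x₁, …, x_n) = x₁ continuant (x₂, …, x_n) +
continuant (x₃, …, x_n)`.
-/

set_option autoImplicit false

namespace Pool.Agent.Results.MP_31fd3b_gt.TwoBridgeIrreducible

open Pool.Agent.H835R2.Knot Pool.Agent.K7.H38.TB Polynomial

/-- Let `b ∈ ℤ^{2g}` and `c ∈ ℤ^{2g'}` be vectors with nonzero entries, and let `f ∈ ℤ[X]` be the
polynomial such that `f(z²)` is the continuant of `(b₁ z, …, b_{2g} z)` (the Conway polynomial of the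
knot `twoBridge b`).  Let `f` be irreducible over `ℚ`, or let `|f(-4)|` (the determinant of the knot)
be a prime number.  Then the knots `twoBridge b` and `twoBridge c` are isotopic, or some integer
valued Vassiliev invariant of order at most `2 max(g, g') + 1` has different values on them. -/
theorem result (b c : List ℤ) (hb : Even b.length ∧ ∀ x ∈ b, x ≠ 0)
    (hc : Even c.length ∧ ∀ x ∈ c, x ≠ 0) (f : ℤ[X])
    (hf : f.comp (X ^ 2) = continuant (b.map fun x => C x * X))
    (h : Irreducible (f.map (Int.castRingHom ℚ)) ∨ (f.eval (-4)).natAbs.Prime) :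
    IsKnot (twoBridge b) ∧ IsKnot (twoBridge c) ∧
      (Isotopic (twoBridge b) (twoBridge c) ∨
        Separated (max b.length c.length + 1) (twoBridge b) (twoBridge c)) :=
  ⟨isKnot_twoBridge b, isKnot_twoBridge c, criterion b c hb hc f hf h⟩

end Pool.Agent.Results.MP_31fd3b_gt.TwoBridgeIrreducible
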